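import Pool.Agent.H28.N6.Lib

set_option autoImplicit false

open Matrix

namespace Pool.Agent.H69.N6D

open Pool.Agent.H28.N6

theorem pf_CNV : T_CNV := by
  intro F _ h2 n r A hA
  constructor
  · rintro ⟨W, hW, hz⟩
    let b := Module.finBasisOfFinrankEq F W hW
    refine ⟨fun i => (b i : Fin n → F), ?_, ?_⟩
    · exact b.linearIndependent.map' W.subtype W.ker_subtype
    · intro i j
      have e := qf_polar A hA (b i : Fin n → F) (b j : Fin n → F)
      rw [hz _ (W.add_mem (b i).2 (b j).2), hz _ (b i).2, hz _ (b j).2] at e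
      have e2 : (2 : F) * ((b i : Fin n → F) ⬝ᵥ (A *ᵥ (b j : Fin n → F))) = 0 := by
        linear_combination -e
      exact (mul_eq_zero.1 e2).resolve_left h2
  · rintro ⟨b, hb, hz⟩
    refine ⟨Submodule.span F (Set.range b), ?_, ?_⟩
    · rw [finrank_span_eq_card hb, Fintype.card_fin]
    · intro z hzW
      obtain ⟨c, rfl⟩ := (Submodule.mem_span_range_iff_exists_fun F).1 hzW
      unfold qf
      rw [mulVec_sum, sum_dotProduct]
      refine Finset.sum_eq_zero fun i _ => ?_
      rw [dotProduct_sum]
      refine Finset.sum_eq_zero fun j _ => ?_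
      rw [mulVec_smul, smul_dotProduct, dotProduct_smul, hz i j, smul_zero, smul_zero]

end Pool.Agent.H69.N6D
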