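import Pool.Agent.H28.N6.Targets

set_option autoImplicit false

open MeasureTheory

namespace Pool.Agent.H69.N6D

open Pool.Agent.H28.N6

theorem pf_SCI : T_SCI := by
  intro F _ _ _ _ _ D f
  haveI := D.haar
  haveI : SecondCountableTopology F := secondCountable_of_proper
  have hp : D.p ≠ 0 := D.p0
  let e : F ≃+ F :=
    { toFun := fun x => D.p * x
      invFun := fun x => D.p⁻¹ * x
      left_inv := fun x => inv_mul_cancel_left₀ hp x
      right_inv := fun x => mul_inv_cancel_left₀ hp x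
      map_add' := fun x y => mul_add _ _ _ }
  have he : Continuous e := continuous_const.mul continuous_id
  have he' : Continuous e.symm := continuous_const.mul continuous_id
  haveI hm : (D.μ.map e).IsAddHaarMeasure := AddEquiv.isAddHaarMeasure_map _ e he he'
  have h := Measure.isAddLeftInvariant_eq_smul (D.μ.map e) D.μ
  have hemb : MeasurableEmbedding e :=
    (Homeomorph.mk e.toEquiv he he').measurableEmbedding
  have hq0 : (D.q : ℝ) ≠ 0 := by
    have := D.hq
    positivity
  have hpos : 0 < ‖D.p‖ := norm_pos_iff.2 hp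
  have hset : e ⁻¹' {t : F | ‖t‖ ≤ ‖D.p‖} = {s : F | ‖s‖ ≤ 1} := by
    ext x
    simp only [Set.mem_preimage, Set.mem_setOf_eq]
    change ‖D.p * x‖ ≤ ‖D.p‖ ↔ _
    rw [norm_mul]
    constructor
    · intro h1
      by_contra h2
      push Not at h2
      nlinarith
    · intro h1
      nlinarith
  set c := Measure.addHaarScalarFactor (D.μ.map e) D.μ with hc
  have h1 : (D.μ.map e) {t : F | ‖t‖ ≤ ‖D.p‖} = 1 := by
    rw [hemb.map_apply, hset, D.one]
  have h2 : (c : ENNReal) * ((D.q : ENNReal)⁻¹) = 1 := by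
    rw [← h1, h, ← D.idx]
    rfl
  have h3 : (c : ℝ) = D.q := by
    have h4 := congrArg ENNReal.toReal h2
    rw [ENNReal.toReal_mul, ENNReal.toReal_inv] at h4
    simp only [ENNReal.coe_toReal, ENNReal.toReal_natCast, ENNReal.toReal_one] at h4
    field_simp at h4
    exact h4
  have h5 : (∫ t in {t : F | ‖t‖ ≤ ‖D.p‖}, f t ∂(D.μ.map e)) =
      ∫ s in {s : F | ‖s‖ ≤ 1}, f (D.p * s) ∂D.μ := by
    rw [hemb.setIntegral_map, hset]
    rfl
  have h6 : (∫ t in {t : F | ‖t‖ ≤ ‖D.p‖}, f t ∂(D.μ.map e)) =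
      (D.q : ℝ) * ∫ t in {t : F | ‖t‖ ≤ ‖D.p‖}, f t ∂D.μ := by
    rw [h, Measure.restrict_smul, integral_smul_nnreal_measure, ← h3]
    rfl
  rw [← h5, h6, inv_mul_cancel_left₀ hq0]

end Pool.Agent.H69.N6D
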