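import Pool.Agent.H28.N6.Targets
import Pool.Agent.H34.N6.Lib

set_option autoImplicit false

namespace Pool.Agent.H69.N6D

open Pool.Agent.H28.N6

theorem pf_GMP : T_GMP := by
  intro F E _ _ ι P D s hP _
  exact Pool.Agent.H34.N6.gA_map hP D s ι

end Pool.Agent.H69.N6D
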